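import Pool.Agent.H59.PMI.Main

/-!
# MP_36796c_pr: sharp perturbed threshold for perfect matchings at linear minimum degree
-/

open Filter Topology

namespace Pool.Agent.Results.MP_36796c_pr.SharpThreshold

/-- The even numbers going to infinity. -/
def evens : Filter ℕ := atTop ⊓ 𝓟 {n | Even n}

/-- The probability that `H ∪ G(n, p)` has the property `Q`. Here `G(n, p)` is the binomial random
graph of Mathlib: each pair of distinct vertices is an edge independently with probability `p`. -/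
noncomputable def prob {n : ℕ} (Q : SimpleGraph (Fin n) → Prop) (H : SimpleGraph (Fin n))
    (p : unitInterval) : ℝ :=
  (SimpleGraph.binomialRandom (Fin n) p).real {G | Q (H ⊔ G)}

/-- The minimum degree of `H` is at least `d`: every vertex has at least `d` neighbours. -/
def MinDegreeGE {n : ℕ} (H : SimpleGraph (Fin n)) (d : ℕ) : Prop :=
  ∀ v, d ≤ (H.neighborSet v).ncard

/-- `pstar` is a sharp `d`-threshold for the graph property `Q` (all sequences run over even
`n`). -/
def IsSharpThreshold (d : ℕ → ℕ) (Q : ∀ n, SimpleGraph (Fin n) → Prop) (pstar : ℕ → ℝ) : Prop :=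
  ∀ ε : ℝ, 0 < ε →
    -- (0)
    (∃ H : ∀ n, SimpleGraph (Fin n), (∀ n, Even n → 0 < n → MinDegreeGE (H n) (d n)) ∧
      ∀ p : ℕ → unitInterval, (∀ᶠ n in evens, (p n : ℝ) ≤ (1 - ε) * pstar n) →
        Tendsto (fun n => prob (Q n) (H n) (p n)) evens (𝓝 0)) ∧
    -- (1)
    ∀ H : ∀ n, SimpleGraph (Fin n), (∀ᶠ n in evens, MinDegreeGE (H n) (d n)) →
      ∀ p : ℕ → unitInterval, (∀ᶠ n in evens, (1 + ε) * pstar n ≤ (p n : ℝ)) →
        Tendsto (fun n => prob (Q n) (H n) (p n)) evens (𝓝 1)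

/-- `G` has a perfect matching. -/
def HasPerfectMatching {n : ℕ} (G : SimpleGraph (Fin n)) : Prop :=
  ∃ M : G.Subgraph, M.IsPerfectMatching

/-- `γ` is the smallest real root of `x = (1 - α) C exp (-(1 - α) C exp (-x))`. -/
def IsGammaLow (α C γ : ℝ) : Prop :=
  IsLeast {x : ℝ | x = (1 - α) * C * Real.exp (-((1 - α) * C * Real.exp (-x)))} γ

/-- `C > 0` solves the equation that defines `C(α)`; `γ` and `γ'` are the two numbers denoted by
`γ` with a lower and an upper star in the problem. -/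
def IsCritical (α C : ℝ) : Prop :=
  0 < C ∧ ∃ γ γ' : ℝ, IsGammaLow α C γ ∧ γ' = (1 - α) * C * Real.exp (-γ) ∧
    1 - (γ + γ' + γ * γ') / ((2 - 2 * α) * C) = (1 - 2 * α) / (2 - 2 * α)

theorem result (α : ℝ) (h0 : 0 < α) (h1 : α < 1 / 2) :
    (∃! C : ℝ, IsCritical α C) ∧
    ∀ C : ℝ, IsCritical α C → ∀ d : ℕ → ℕ,
      Tendsto (fun n => (d n : ℝ) / n) evens (𝓝 α) → (∀ n, Even n → 0 < n → d n < n) →
      IsSharpThreshold d (fun _ G => HasPerfectMatching G) (fun n => C / n) := by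
  have hα2 : 0 < 1 - α := by linarith
  have key : ∀ C : ℝ, IsCritical α C → 0 < C ∧ H88.PM.FF ((1 - α) * C) = α / (1 - α) := by
    rintro C ⟨hC, γ, γ', hγ, hγ', h⟩
    exact ⟨hC, (H59.PMI.eq_iff h1 hC hγ hγ').mp h⟩
  refine ⟨?_, ?_⟩
  · have hy0 : 0 < α / (1 - α) := by positivity
    have hy1 : α / (1 - α) < 1 := by rw [div_lt_one hα2]; linarith
    obtain ⟨c, hc, hFF⟩ := H88.PM.FF_surj hy0 hy1
    have hCc : (1 - α) * (c / (1 - α)) = c := by field_simp
    have hC0 : 0 < c / (1 - α) := by positivity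
    have hγ : IsGammaLow α (c / (1 - α)) (c * H88.PM.ql c) := by
      unfold IsGammaLow
      rw [hCc]
      exact H59.PMI.least_root hc
    refine ⟨c / (1 - α), ⟨hC0, _, _, hγ, rfl, ?_⟩, ?_⟩
    · exact (H59.PMI.eq_iff h1 hC0 hγ rfl).mpr (by rw [hCc]; exact hFF)
    · intro C' hC'
      obtain ⟨h2, h3⟩ := key C' hC'
      have h4 : (1 - α) * C' = c :=
        H59.PMI.FF_inj (by positivity) hc.le (h3.trans hFF.symm)
      rw [← h4]
      field_simp
  · intro C hC d hd hdn ε hε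
    obtain ⟨h2, h3⟩ := key C hC
    exact ⟨H59.PMI.lower_seq h0 h1 h2 h3 hε d hd hdn,
      fun H hH p hp => H59.PMI.upper_seq h0 h1 h2 h3 hε d hd H hH p hp⟩

end Pool.Agent.Results.MP_36796c_pr.SharpThreshold
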